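import Pool.Agent.H63Fed.Miranda

/-!
# A fixed-point free flow with two points such that all factors separating them have infinite
entropy
-/

namespace Pool.Agent.Results.MP_54b048_an.NoSmallFactor

open Set Filter Topology Dynamics ExpGrowth

/-! ### The space of Lipschitz functions -/

/-- `1`-Lipschitz functions `ℝ → [0,1]`, with the topology of pointwise convergence. -/
def L : Set (ℝ → ℝ) := {f | (∀ x, 0 ≤ f x ∧ f x ≤ 1) ∧ ∀ x y, |f x - f y| ≤ |x - y|}

lemma L_closed : IsClosed L := by
  have h : L = (⋂ x : ℝ, {f : ℝ → ℝ | 0 ≤ f x}) ∩ (⋂ x : ℝ, {f : ℝ → ℝ | f x ≤ 1}) ∩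
      ⋂ x : ℝ, ⋂ y : ℝ, {f : ℝ → ℝ | |f x - f y| ≤ |x - y|} := by
    ext f
    simp only [L, mem_inter_iff, mem_iInter, mem_ofPred_eq]
    constructor
    · rintro ⟨h1, h2⟩
      exact ⟨⟨fun x => (h1 x).1, fun x => (h1 x).2⟩, h2⟩
    · rintro ⟨⟨h1, h2⟩, h3⟩
      exact ⟨fun x => ⟨h1 x, h2 x⟩, h3⟩
  rw [h]
  refine ((isClosed_iInter fun x => isClosed_le continuous_const (continuous_apply x)).inter
    (isClosed_iInter fun x => isClosed_le (continuous_apply x) continuous_const)).inter
    (isClosed_iInter fun x => isClosed_iInter fun y => isClosed_le ?_ continuous_const)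
  exact ((continuous_apply x).sub (continuous_apply y)).abs

instance : CompactSpace L := by
  rw [← isCompact_iff_compactSpace]
  refine IsCompact.of_isClosed_subset (isCompact_univ_pi (fun _ : ℝ => isCompact_Icc (a := (0 : ℝ))
    (b := 1))) L_closed ?_
  intro f hf x _
  exact hf.1 x

/-- restriction to the rationals -/
def res (f : L) : ℚ → ℝ := fun q => f.1 q

lemma res_continuous : Continuous res :=
  continuous_pi fun q => (continuous_apply (q : ℝ)).comp continuous_subtype_val

lemma res_injective : Function.Injective res := by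
  intro f g h
  apply Subtype.ext
  have hcont : ∀ f : L, Continuous f.1 := by
    intro f
    rw [Metric.continuous_iff]
    intro x ε hε
    refine ⟨ε, hε, fun y hy => ?_⟩
    rw [Real.dist_eq] at hy ⊢
    exact lt_of_le_of_lt (f.2.2 y x) hy
  have hdense : DenseRange ((↑) : ℚ → ℝ) := Rat.denseRange_cast
  exact hdense.equalizer (hcont f) (hcont g) (funext fun q => congrFun h q)

instance : TopologicalSpace.MetrizableSpace L :=
  (res_continuous.isClosedEmbedding res_injective).isEmbedding.metrizableSpace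

/-- translation -/
def sh (t : ℝ) (f : L) : L :=
  ⟨fun x => f.1 (x + t), fun x => f.2.1 (x + t), fun x y => by
    have := f.2.2 (x + t) (y + t)
    rwa [add_sub_add_right_eq_sub] at this⟩

lemma eval_continuous : Continuous fun p : L × ℝ => p.1.1 p.2 := by
  rw [continuous_iff_continuousAt]
  rintro ⟨f₀, s₀⟩
  rw [ContinuousAt, tendsto_iff_dist_tendsto_zero]
  have h : Tendsto (fun p : L × ℝ => |p.2 - s₀| + |p.1.1 s₀ - f₀.1 s₀|) (𝓝 (f₀, s₀)) (𝓝 0) := by
    have hc : Continuous fun p : L × ℝ => |p.2 - s₀| + |p.1.1 s₀ - f₀.1 s₀| := by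
      have h1 : Continuous fun p : L × ℝ => p.1.1 s₀ :=
        (continuous_apply s₀).comp (continuous_subtype_val.comp continuous_fst)
      fun_prop
    have := hc.tendsto (f₀, s₀)
    simpa using this
  refine squeeze_zero (fun _ => dist_nonneg) (fun p => ?_) h
  rw [Real.dist_eq]
  have h1 := p.1.2.2 p.2 s₀
  have h2 := abs_sub_le (p.1.1 p.2) (p.1.1 s₀) (f₀.1 s₀)
  show |p.1.1 p.2 - f₀.1 s₀| ≤ _
  linarith

/-- the space of the flow -/
abbrev X : Type := L × UnitAddCircle

/-- the flow -/
def Ph : Flow ℝ X where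
  toFun t p := (sh t p.1, p.2 + ((t : ℝ) : UnitAddCircle))
  cont' := by
    refine Continuous.prodMk ?_ ?_
    · refine Continuous.subtype_mk (continuous_pi fun x => ?_) _
      exact eval_continuous.comp ((continuous_fst.comp continuous_snd).prodMk
        (continuous_const.add continuous_fst))
    · exact (continuous_snd.comp continuous_snd).add
        ((AddCircle.continuous_mk' (1 : ℝ)).comp continuous_fst)
  map_add' t₁ t₂ p := by
    refine Prod.ext (Subtype.ext (funext fun x => ?_)) ?_
    · show p.1.1 (x + (t₁ + t₂)) = p.1.1 (x + t₁ + t₂)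
      rw [add_assoc]
    · show p.2 + ((t₁ + t₂ : ℝ) : UnitAddCircle) = p.2 + (t₂ : UnitAddCircle) + (t₁ : UnitAddCircle)
      rw [AddCircle.coe_add, add_assoc, add_comm (t₂ : UnitAddCircle)]
  map_zero' p := by
    refine Prod.ext (Subtype.ext (funext fun x => ?_)) ?_
    · show p.1.1 (x + 0) = p.1.1 x
      rw [add_zero]
    · show p.2 + ((0 : ℝ) : UnitAddCircle) = p.2
      rw [AddCircle.coe_zero, add_zero]

lemma Ph_fst (t : ℝ) (p : X) : (Ph t p).1 = sh t p.1 := rfl
lemma Ph_snd (t : ℝ) (p : X) : (Ph t p).2 = p.2 + ((t : ℝ) : UnitAddCircle) := rfl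

lemma no_fixed (p : X) : Ph (1 / 2) p ≠ p := by
  intro h
  have h1 : p.2 + ((1 / 2 : ℝ) : UnitAddCircle) = p.2 := congrArg Prod.snd h
  have h2 : ((1 / 2 : ℝ) : UnitAddCircle) = 0 := by
    have := add_left_cancel (a := p.2) (h1.trans (add_zero p.2).symm)
    exact this
  rw [AddCircle.coe_eq_zero_iff] at h2
  obtain ⟨n, hn⟩ := h2
  rw [zsmul_eq_mul, mul_one] at hn
  have h3 : (2 * n : ℝ) = 1 := by linarith
  have h4 : (2 * n : ℤ) = 1 := by exact_mod_cast h3
  omega

/-- the bump -/
noncomputable def bump (x : ℝ) : ℝ := max 0 (1 / 2 - |x|)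

lemma bump_nonneg (x : ℝ) : 0 ≤ bump x := le_max_left _ _

lemma bump_le (x : ℝ) : bump x ≤ 1 / 2 := by
  unfold bump
  apply max_le (by norm_num)
  linarith [abs_nonneg x]

lemma bump_lip (x y : ℝ) : bump x ≤ bump y + |x - y| := by
  unfold bump
  apply max_le
  · have := le_max_left (0 : ℝ) (1 / 2 - |y|)
    linarith [abs_nonneg (x - y)]
  · have h1 := le_max_right (0 : ℝ) (1 / 2 - |y|)
    have h2 := abs_sub_abs_le_abs_sub y x
    rw [abs_sub_comm] at h2
    linarith

lemma bump_eq_zero {x : ℝ} (h : 1 / 2 ≤ |x|) : bump x = 0 := by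
  unfold bump
  exact max_eq_left (by linarith)

/-- clamp -/
noncomputable def cl (t : ℝ) : ℝ := max 0 (min 1 t)

lemma cl_mem (t : ℝ) : 0 ≤ cl t ∧ cl t ≤ 1 :=
  ⟨le_max_left _ _, max_le zero_le_one (min_le_left _ _)⟩

lemma cl_cont : Continuous cl := by unfold cl; fun_prop

/-- the superposition of the bumps with heights `t j` at the places `j M`. -/
noncomputable def GG (M n : ℕ) (t : Fin (n + 1) → ℝ) : L :=
  ⟨fun x => Finset.univ.sup' Finset.univ_nonempty fun j : Fin (n + 1) =>
      cl (t j) * bump (x - (j : ℕ) * M), by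
    intro x
    constructor
    · refine le_trans ?_ (Finset.le_sup' _ (Finset.mem_univ (0 : Fin (n + 1))))
      exact mul_nonneg (cl_mem _).1 (bump_nonneg _)
    · refine Finset.sup'_le _ _ fun j _ => ?_
      have h1 := cl_mem (t j)
      have h2 := bump_nonneg (x - (j : ℕ) * M)
      have h3 := bump_le (x - (j : ℕ) * M)
      nlinarith, by
    have key : ∀ x y : ℝ, (Finset.univ.sup' Finset.univ_nonempty fun j : Fin (n + 1) =>
        cl (t j) * bump (x - (j : ℕ) * M)) ≤
        (Finset.univ.sup' Finset.univ_nonempty fun j : Fin (n + 1) =>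
        cl (t j) * bump (y - (j : ℕ) * M)) + |x - y| := by
      intro x y
      refine Finset.sup'_le _ _ fun j _ => ?_
      have h0 := Finset.le_sup' (fun j : Fin (n + 1) => cl (t j) * bump (y - (j : ℕ) * M))
        (Finset.mem_univ j)
      have h1 := cl_mem (t j)
      have h2 := bump_lip (x - (j : ℕ) * M) (y - (j : ℕ) * M)
      rw [sub_sub_sub_cancel_right] at h2
      have h3 : cl (t j) * bump (x - (j : ℕ) * M) ≤
          cl (t j) * (bump (y - (j : ℕ) * M) + |x - y|) := mul_le_mul_of_nonneg_left h2 h1.1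
      have h4 : cl (t j) * |x - y| ≤ |x - y| := by nlinarith [abs_nonneg (x - y)]
      linarith
    intro x y
    rw [abs_le]
    have h1 := key x y
    have h2 := key y x
    rw [abs_sub_comm] at h2
    constructor <;> linarith⟩

lemma GG_cont (M n : ℕ) : Continuous (GG M n) := by
  refine Continuous.subtype_mk (continuous_pi fun x => ?_) _
  refine Continuous.finset_sup'_apply _ fun j _ => ?_
  exact (cl_cont.comp (continuous_apply j)).mul continuous_const

/-- near `j M` the function is the `j`-th bump -/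
lemma GG_near {M n : ℕ} (t : Fin (n + 1) → ℝ) (j : Fin (n + 1)) {x : ℝ}
    (hx : |x| ≤ M - 1 / 2) : (sh ((j : ℕ) * M) (GG M n t)).1 x = cl (t j) * bump x := by
  show (Finset.univ.sup' Finset.univ_nonempty fun i : Fin (n + 1) =>
      cl (t i) * bump (x + (j : ℕ) * M - (i : ℕ) * M)) = _
  apply le_antisymm
  · refine Finset.sup'_le _ _ fun i _ => ?_
    by_cases hij : i = j
    · rw [hij, add_sub_cancel_right]
    · have h1 : 1 / 2 ≤ |x + (j : ℕ) * M - (i : ℕ) * M| := by
        have h2 : (M : ℝ) ≤ |((j : ℕ) : ℝ) * M - ((i : ℕ) : ℝ) * M| := by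
          rw [← sub_mul, abs_mul, abs_of_nonneg (Nat.cast_nonneg M : (0 : ℝ) ≤ M)]
          have h3 : (1 : ℝ) ≤ |((j : ℕ) : ℝ) - ((i : ℕ) : ℝ)| := by
            have h4 : ((j : ℕ) : ℤ) - ((i : ℕ) : ℤ) ≠ 0 := by
              intro h
              apply hij
              apply Fin.ext
              omega
            have h5 : (1 : ℤ) ≤ |((j : ℕ) : ℤ) - ((i : ℕ) : ℤ)| := Int.one_le_abs h4
            exact_mod_cast h5
          nlinarith [(Nat.cast_nonneg M : (0 : ℝ) ≤ M)]
        have h6 : |((j : ℕ) : ℝ) * M - ((i : ℕ) : ℝ) * M| ≤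
            |x + (j : ℕ) * M - (i : ℕ) * M| + |x| := by
          have h7 := abs_sub (x + (j : ℕ) * M - (i : ℕ) * M) x
          have e : x + (j : ℕ) * M - (i : ℕ) * M - x = ((j : ℕ) : ℝ) * M - ((i : ℕ) : ℝ) * M := by
            ring
          rw [e] at h7
          exact h7
        linarith
      rw [bump_eq_zero h1, mul_zero]
      exact mul_nonneg (cl_mem _).1 (bump_nonneg _)
  · refine le_trans (le_of_eq ?_) (Finset.le_sup' _ (Finset.mem_univ j))
    rw [add_sub_cancel_right]

/-- a multiple of the bump -/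
noncomputable def bm (c : ℝ) : L :=
  ⟨fun x => cl c * bump x, fun x => by
      have h1 := cl_mem c
      have h2 := bump_nonneg x
      have h3 := bump_le x
      constructor
      · exact mul_nonneg h1.1 h2
      · nlinarith, fun x y => by
      have h1 := cl_mem c
      have h2 := bump_lip x y
      have h3 := bump_lip y x
      rw [abs_sub_comm] at h3
      rw [← mul_sub, abs_mul, abs_of_nonneg h1.1]
      have h4 : |bump x - bump y| ≤ |x - y| := by
        rw [abs_le]; constructor <;> linarith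
      nlinarith [abs_nonneg (bump x - bump y)]⟩

/-- locality of continuous functions on `L` -/
lemma exists_M (g : L → ℝ) (hg : Continuous g) :
    ∃ M : ℕ, 1 ≤ M ∧ ∀ u v : L, (∀ x : ℝ, |x| ≤ M - 1 / 2 → u.1 x = v.1 x) →
      |g u - g v| ≤ 1 / 4 := by
  by_contra hcon
  push Not at hcon
  set C : ℕ → Set (L × L) := fun m =>
    {p | (∀ x : ℝ, |x| ≤ (m + 1 : ℕ) - 1 / 2 → p.1.1 x = p.2.1 x) ∧ 1 / 4 ≤ |g p.1 - g p.2|}
    with hC
  have hclosed : ∀ m, IsClosed (C m) := by
    intro m
    have : C m = (⋂ x : ℝ, ⋂ _ : |x| ≤ (m + 1 : ℕ) - 1 / 2, {p : L × L | p.1.1 x = p.2.1 x}) ∩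
        {p : L × L | 1 / 4 ≤ |g p.1 - g p.2|} := by
      ext p
      simp only [hC, mem_inter_iff, mem_iInter, mem_ofPred_eq]
    rw [this]
    refine (isClosed_iInter fun x => isClosed_iInter fun _ => isClosed_eq ?_ ?_).inter
      (isClosed_le continuous_const ((hg.comp continuous_fst).sub (hg.comp continuous_snd)).abs)
    · exact (continuous_apply x).comp (continuous_subtype_val.comp continuous_fst)
    · exact (continuous_apply x).comp (continuous_subtype_val.comp continuous_snd)
  obtain ⟨p, hp⟩ := IsCompact.nonempty_iInter_of_sequence_nonempty_isCompact_isClosed C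
    (fun m p hp => ⟨fun x hx => hp.1 x (by push_cast at hx ⊢; linarith), hp.2⟩)
    (fun m => by
      obtain ⟨u, v, huv, hlt⟩ := hcon (m + 1) (by omega)
      exact ⟨(u, v), huv, hlt.le⟩)
    (hclosed 0).isCompact hclosed
  rw [mem_iInter] at hp
  have heq : p.1 = p.2 := by
    apply Subtype.ext
    funext x
    obtain ⟨m, hm⟩ := exists_nat_gt |x|
    exact (hp m).1 x (by push_cast; linarith)
  have h1 := (hp 0).2
  rw [heq, sub_self, abs_zero] at h1
  norm_num at h1

/-! ### The theorem -/

/-- the two points -/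
noncomputable def w : X := (bm 0, 0)
/-- the two points -/
noncomputable def w' : X := (bm 1, 0)

lemma w_ne : w ≠ w' := by
  intro h
  have h1 : w.1.1 0 = w'.1.1 0 := by rw [h]
  change (bm 0).1 0 = (bm 1).1 0 at h1
  simp only [bm, cl, bump] at h1
  norm_num at h1

lemma main {Y : Type*} [UniformSpace Y] [CompactSpace Y] [T2Space Y] (Ψ : Flow ℝ Y) (π : X → Y)
    (hπ : Continuous π) (heq : ∀ (t : ℝ) (x : X), π (Ph t x) = Ψ t (π x)) (hne : π w ≠ π w') :
    coverEntropy (Ψ 1) (univ : Set Y) = ⊤ := by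
  classical
  obtain ⟨h, h0, h1, h01⟩ := exists_continuous_zero_one_of_isClosed
    (isClosed_singleton (x := π w)) (isClosed_singleton (x := π w'))
    (by simpa using hne)
  have h0' : h (π w) = 0 := h0 rfl
  have h1' : h (π w') = 1 := h1 rfl
  set g : L → ℝ := fun f => h (π (f, 0)) with hgdef
  have hgc : Continuous g := h.continuous.comp (hπ.comp (Continuous.prodMk_left 0))
  obtain ⟨M, hM, hloc⟩ := exists_M g hgc
  -- the values along the orbit
  have hval : ∀ (n : ℕ) (t : Fin (n + 1) → ℝ) (j : Fin (n + 1)),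
      h (Ψ (((j : ℕ) * M : ℕ) : ℝ) (π (GG M n t, 0))) = g (sh ((j : ℕ) * M) (GG M n t)) := by
    intro n t j
    rw [← heq]
    have e1 : Ph (((j : ℕ) * M : ℕ) : ℝ) (GG M n t, (0 : UnitAddCircle)) =
        (sh ((j : ℕ) * M) (GG M n t), 0) := by
      refine Prod.ext ?_ ?_
      · rw [Ph_fst]; push_cast; rfl
      · rw [Ph_snd]
        show (0 : UnitAddCircle) + (((((j : ℕ) * M : ℕ) : ℝ)) : UnitAddCircle) = 0
        rw [zero_add, AddCircle.coe_eq_zero_iff]
        exact ⟨(((j : ℕ) * M : ℕ) : ℤ), by simp⟩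
    rw [e1]
  -- Poincaré–Miranda
  have hPM : ∀ (n : ℕ) (a : Fin (n + 1) → ℝ), (∀ j, 1 / 4 ≤ a j ∧ a j ≤ 3 / 4) →
      ∃ y : Y, ∀ j : Fin (n + 1), h (Ψ (((j : ℕ) * M : ℕ) : ℝ) y) = a j := by
    intro n a ha
    have hclose : ∀ (t : Fin (n + 1) → ℝ) (j : Fin (n + 1)),
        |g (sh ((j : ℕ) * M) (GG M n t)) - g (bm (t j))| ≤ 1 / 4 := by
      intro t j
      apply hloc
      intro x hx
      exact GG_near t j hx
    obtain ⟨t, _, ht⟩ := H63Fed.Miranda.poincare_miranda (n + 1)
      (fun t j => g (sh ((j : ℕ) * M) (GG M n t)) - a j) (by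
        apply Continuous.continuousOn
        refine continuous_pi fun j => Continuous.sub ?_ continuous_const
        refine hgc.comp ?_
        refine Continuous.subtype_mk (continuous_pi fun x => ?_) _
        exact (continuous_apply (x + (j : ℕ) * M)).comp (continuous_subtype_val.comp (GG_cont M n)))
      (by
        intro t _ j hj
        have h2 := hclose t j
        have h3 : g (bm (t j)) = 0 := by rw [hj]; exact h0'
        rw [h3, sub_zero] at h2
        have h4 := (abs_le.mp h2).2
        have h5 := (ha j).1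
        show g (sh ((j : ℕ) * M) (GG M n t)) - a j ≤ 0
        linarith)
      (by
        intro t _ j hj
        have h2 := hclose t j
        have h3 : g (bm (t j)) = 1 := by rw [hj]; exact h1'
        rw [h3] at h2
        have h4 := (abs_le.mp h2).1
        have h5 := (ha j).2
        show 0 ≤ g (sh ((j : ℕ) * M) (GG M n t)) - a j
        linarith)
    refine ⟨π (GG M n t, 0), fun j => ?_⟩
    rw [hval]
    have := congrFun ht j
    simp only [Pi.zero_apply] at this
    linarith
  -- iterates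
  have hiter : ∀ (k : ℕ) (y : Y), (Ψ 1)^[k] y = Ψ (k : ℝ) y := by
    intro k
    induction k with
    | zero => intro y; simp [Ψ.map_zero_apply]
    | succ k ih =>
      intro y
      rw [Function.iterate_succ_apply', ih, ← Ψ.map_add]
      congr 1
      push_cast
      ring
  -- growth
  have hgrow : ∀ K : ℕ, 1 ≤ K → ENNReal.log ((K + 1 : ℕ) : ENNReal) ≤
      M * coverEntropy (Ψ 1) (univ : Set Y) := by
    intro K hK
    have hKpos : (0 : ℝ) < K := by exact_mod_cast hK
    set ε : ℝ := 1 / (4 * K) with hε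
    have hε0 : 0 < ε := by positivity
    set U : SetRel Y Y := {p : Y × Y | dist (h p.1) (h p.2) < ε} with hU
    have hUu : U ∈ uniformity Y := by
      have huc := CompactSpace.uniformContinuous_of_continuous h.continuous
      exact huc (Metric.dist_mem_uniformity hε0)
    have hcov : ∀ n : ℕ, ∀ E : Finset Y, IsDynCoverOf (Ψ 1) univ U (M * (n + 1)) (E : Set Y) →
        (K + 1) ^ (n + 1) ≤ E.card := by
      intro n E hE
      let av : (Fin (n + 1) → Fin (K + 1)) → Fin (n + 1) → ℝ := fun α j =>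
        1 / 4 + ((α j : ℕ) : ℝ) / (2 * K)
      have hav : ∀ α j, 1 / 4 ≤ av α j ∧ av α j ≤ 3 / 4 := by
        intro α j
        have h2 : (((α j : ℕ) : ℝ)) ≤ K := by exact_mod_cast Nat.lt_succ_iff.mp (α j).2
        have h3 : ((α j : ℕ) : ℝ) / (2 * K) ≤ 1 / 2 := by
          rw [div_le_iff₀ (by positivity)]; linarith
        have h4 : 0 ≤ ((α j : ℕ) : ℝ) / (2 * K) := by positivity
        constructor
        · show 1 / 4 ≤ 1 / 4 + ((α j : ℕ) : ℝ) / (2 * K); linarith
        · show 1 / 4 + ((α j : ℕ) : ℝ) / (2 * K) ≤ 3 / 4; linarith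
      choose y hy using fun α => hPM n (av α) (hav α)
      have hs : ∀ α, ∃ s ∈ E, ∀ k < M * (n + 1), ((Ψ 1)^[k] (y α), (Ψ 1)^[k] s) ∈ U := by
        intro α
        obtain ⟨s, hs, hsU⟩ := hE (mem_univ (y α))
        exact ⟨s, hs, fun k hk => mem_dynEntourage.mp hsU k hk⟩
      choose s hsE hsU using hs
      have hinj : Function.Injective s := by
        intro α β hαβ
        funext j
        have hk : (j : ℕ) * M < M * (n + 1) := by
          rw [mul_comm]
          exact Nat.mul_lt_mul_of_pos_left j.2 hM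
        have h2 := hsU α _ hk
        have h3 := hsU β _ hk
        rw [hiter, hiter] at h2 h3
        have h2' : dist (h (Ψ (((j : ℕ) * M : ℕ) : ℝ) (y α))) (h (Ψ (((j : ℕ) * M : ℕ) : ℝ) (s α)))
            < ε := h2
        have h3' : dist (h (Ψ (((j : ℕ) * M : ℕ) : ℝ) (y β))) (h (Ψ (((j : ℕ) * M : ℕ) : ℝ) (s β)))
            < ε := h3
        rw [hy α j, ← hαβ] at *
        rw [hy β j] at h3'
        have h4 : dist (av α j) (av β j) < 2 * ε := by
          have := dist_triangle_right (av α j) (av β j) (h (Ψ (((j : ℕ) * M : ℕ) : ℝ) (s α)))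
          linarith
        rw [Real.dist_eq] at h4
        have h5 : av α j - av β j = (((α j : ℕ) : ℝ) - ((β j : ℕ) : ℝ)) / (2 * K) := by
          show 1 / 4 + ((α j : ℕ) : ℝ) / (2 * K) - (1 / 4 + ((β j : ℕ) : ℝ) / (2 * K)) = _
          ring
        rw [h5, abs_div, abs_of_pos (by positivity : (0 : ℝ) < 2 * K),
          div_lt_iff₀ (by positivity)] at h4
        have h6 : 2 * ε * (2 * K) = 1 := by rw [hε]; field_simp; norm_num
        rw [h6] at h4
        have h7 : |((α j : ℕ) : ℤ) - ((β j : ℕ) : ℤ)| < 1 := by exact_mod_cast h4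
        rw [Int.abs_lt_one_iff] at h7
        apply Fin.ext
        omega
      have hcard : (Finset.univ : Finset (Fin (n + 1) → Fin (K + 1))).card ≤ E.card :=
        Finset.card_le_card_of_injOn s (fun α _ => hsE α) (hinj.injOn)
      simpa using hcard
    have hmono : Monotone (fun n : ℕ => ((coverMincard (Ψ 1) univ U n : ℕ∞) : ENNReal)) :=
      fun a b hab => ENat.toENNReal_mono (coverMincard_monotone_time (Ψ 1) univ U hab)
    have hge : ∀ n : ℕ, 1 ≤ n → ((K + 1 : ℕ) : ENNReal) ^ n ≤
        ((coverMincard (Ψ 1) univ U (M * n) : ℕ∞) : ENNReal) := by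
      intro n hn
      obtain ⟨n, rfl⟩ : ∃ m, n = m + 1 := ⟨n - 1, by omega⟩
      rcases eq_or_ne (coverMincard (Ψ 1) univ U (M * (n + 1))) ⊤ with h2 | h2
      · rw [h2]; simp
      · obtain ⟨E, hE, hcard⟩ := (coverMincard_finite_iff (Ψ 1) univ U (M * (n + 1))).mp
          (lt_top_iff_ne_top.mpr h2)
        rw [← hcard]
        have h3 := hcov n E hE
        have h4 : (((E.card : ℕ∞)) : ENNReal) = ((E.card : ℕ) : ENNReal) := by simp
        rw [h4]
        exact_mod_cast h3
    have h2 : expGrowthSup (fun n : ℕ => ((K + 1 : ℕ) : ENNReal) ^ n) ≤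
        expGrowthSup (fun n : ℕ => ((coverMincard (Ψ 1) univ U (M * n) : ℕ∞) : ENNReal)) := by
      apply expGrowthSup_eventually_monotone
      filter_upwards [eventually_ge_atTop 1] with n hn
      exact hge n hn
    rw [expGrowthSup_pow, Monotone.expGrowthSup_comp_mul hmono (m := M) (by omega)] at h2
    refine h2.trans ?_
    apply mul_le_mul_of_nonneg_left _ (by exact_mod_cast Nat.zero_le M)
    exact coverEntropyEntourage_le_coverEntropy (Ψ 1) univ hUu
  -- conclusion
  by_contra hcon
  set H := coverEntropy (Ψ 1) (univ : Set Y) with hH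
  have hH0 : 0 ≤ H := coverEntropy_nonneg _ ⟨π w, mem_univ _⟩
  have hbot : H ≠ ⊥ := fun h2 => by rw [h2] at hH0; exact absurd hH0 (by simp)
  lift H to ℝ using ⟨hcon, hbot⟩ with Hr hHr
  obtain ⟨K, hK⟩ := exists_nat_gt (Real.exp (M * Hr))
  have hKpos : (0 : ℝ) < K := lt_trans (Real.exp_pos _) hK
  have hK1 : 1 ≤ K := by exact_mod_cast hKpos
  have h2 := hgrow K hK1
  have h3 : ENNReal.log ((K + 1 : ℕ) : ENNReal) = ((Real.log (K + 1) : ℝ) : EReal) := by
    rw [← ENNReal.ofReal_natCast, ENNReal.log_ofReal_of_pos (by positivity)]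
    push_cast
    rfl
  rw [h3] at h2
  have h4 : ((Real.log (K + 1) : ℝ) : EReal) ≤ ((M * Hr : ℝ) : EReal) := by
    refine h2.trans (le_of_eq ?_)
    rw [EReal.coe_mul]
    rfl
  have h5 : Real.log (K + 1) ≤ M * Hr := by exact_mod_cast h4
  have h6 : M * Hr < Real.log (K + 1) := by
    rw [Real.lt_log_iff_exp_lt (by positivity)]
    linarith
  linarith

/-- There is a fixed-point free flow on a compact metrizable space `X` and points `w ≠ w'` such
that every flow factor map `π` (indeed every continuous equivariant map into a flow on a compact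
Hausdorff space) with `π w ≠ π w'` has image flow of infinite topological entropy. -/
theorem result.{u} :
    ∃ (X : Type) (_ : TopologicalSpace X) (_ : CompactSpace X)
      (_ : TopologicalSpace.MetrizableSpace X) (Φ : Flow ℝ X),
      (¬ ∃ x : X, ∀ t : ℝ, Φ t x = x) ∧
      ∃ w w' : X, w ≠ w' ∧
        ∀ (Y : Type u) [UniformSpace Y] [CompactSpace Y] [T2Space Y] (Ψ : Flow ℝ Y) (π : X → Y),
          Continuous π → Function.Surjective π → (∀ (t : ℝ) (x : X), π (Φ t x) = Ψ t (π x)) →
          π w ≠ π w' → Dynamics.coverEntropy (Ψ 1) (Set.univ : Set Y) = ⊤ :=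
  ⟨X, inferInstance, inferInstance, inferInstance, Ph, fun ⟨x, hx⟩ => no_fixed x (hx _),
    w, w', w_ne, fun _ _ _ _ Ψ π hπ _ heq hne => main Ψ π hπ heq hne⟩

end Pool.Agent.Results.MP_54b048_an.NoSmallFactor
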